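import Mathlib

/-!
# Heron triangles with Fibonacci side lengths: residue classes modulo 120

If the triangle with sides `F (n - k)`, `F n`, `F n` has integral area then
`4 (F n) ^ 2 = F (n - k) ^ 2 + m ^ 2` for an integer `m`.  All Fibonacci numbers are periodic with
period `240` modulo `7, 9, 11, 16, 23, 31, 41, 61, 241, 2161`, and the squares modulo these numbers
leave only few classes for `(n, n - k)`.  Also, `F n / F (gcd n k)` has no prime factor which is
`3` modulo `4`.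
-/

set_option autoImplicit false
set_option maxRecDepth 100000

namespace Pool.Agent.Results.MP_057a7b_nt.HeronClasses

/-- The area of the triangle with sides `F (n - k)`, `F n`, `F n` (Heron's formula). -/
noncomputable def area (n k : ℕ) : ℝ :=
  (Nat.fib (n - k) : ℝ) / 4 * Real.sqrt (4 * (Nat.fib n : ℝ) ^ 2 - (Nat.fib (n - k) : ℝ) ^ 2)

/-- Moduli with the bit masks of their squares. -/
def mods : List (ℕ × ℕ) :=
  [(16, 531),
   (9, 147),
   (11, 571),
   (7, 23),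
   (41, 1870503675703),
   (23, 340831),
   (31, 303908791),
   (61, 1662926210933060155),
   (241, 3503677951953348316105854456354073289344456812647089274464254465766954879),
   (2161, 332955785667280145432403486909847486282395061617480960541553905365809308106773548289273373407810592819281661659774762336055287263638735539984329006191973857033646904408138802273907413625563651080308768587102815692862814814739769926427995421513555253059314346298406049113355473239657434696096138606557694121937197973922980733845124887849580541726643145418636747204596067129026443931007429426074335440215542528134087836267302113046066440515460666663185813051201499263895556826662487482492006395289973488523829993020755474611188583523814594653806617187525971193976929831528587534622181255191625127314783028016498223865874145719987660529740704265457352575)]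

def inS (a b : ℕ) : Bool :=
  (b % 120 == 0) ||
  ((b % 120 == 3 || b % 120 == 27 || b % 120 == 93 || b % 120 == 117) &&
    (a % 120 == 1 || a % 120 == 2 || a % 120 == 118 || a % 120 == 119)) ||
  ((b % 120 == 6 || b % 120 == 114) && (a % 120 == 5 || a % 120 == 115)) ||
  ((b % 120 == 60) && (a % 120 == 30 || a % 120 == 58 || a % 120 == 59 ||
    a % 120 == 61 || a % 120 == 62 || a % 120 == 90))

/-- Does some modulus exclude the pair of residues `x`, `y`? -/
def killed (x y : ℕ) : List (ℕ × ℕ) → Bool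
  | [] => false
  | p :: l => (!(Nat.testBit p.2 ((4 * (x * x) + (p.1 - 1) * (y * y)) % p.1))) || killed x y l

def test (x y a b : ℕ) : Bool := inS a b || killed x y mods

def inner (x a : ℕ) : ℕ → ℕ → ℕ → ℕ → Bool
  | 0, _, _, _ => true
  | f + 1, b, y, y' => test x y a b && inner x a f (b + 1) y' (y + y')

def outer : ℕ → ℕ → ℕ → ℕ → Bool
  | 0, _, _, _ => true
  | f + 1, a, x, x' => inner x a 240 0 0 1 && outer f (a + 1) x' (x + x')

theorem outer_true : outer 240 0 0 1 = true := by decide +kernel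

/-! ### Reading off the computation -/

theorem killed_spec (x y : ℕ) : ∀ l : List (ℕ × ℕ), killed x y l = true →
    ∃ p ∈ l, Nat.testBit p.2 ((4 * (x * x) + (p.1 - 1) * (y * y)) % p.1) = false := by
  intro l
  induction l with
  | nil => intro h; simp [killed] at h
  | cons p l ih =>
    intro h
    rw [killed, Bool.or_eq_true] at h
    rcases h with h | h
    · exact ⟨p, List.mem_cons_self, by simpa using h⟩
    · obtain ⟨p', hp', h'⟩ := ih h
      exact ⟨p', List.mem_cons_of_mem _ hp', h'⟩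

theorem inner_spec (x a : ℕ) : ∀ f b y y' : ℕ, y = Nat.fib b → y' = Nat.fib (b + 1) →
    inner x a f b y y' = true → ∀ c, b ≤ c → c < b + f → test x (Nat.fib c) a c = true := by
  intro f
  induction f with
  | zero => intro b y y' _ _ _ c h1 h2; omega
  | succ f ih =>
    intro b y y' hy hy' h c h1 h2
    rw [inner, Bool.and_eq_true] at h
    rcases Nat.eq_or_lt_of_le h1 with rfl | h3
    · rw [← hy]; exact h.1
    · refine ih (b + 1) y' (y + y') hy' ?_ h.2 c h3 (by omega)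
      rw [hy, hy', ← Nat.fib_add_two]

theorem outer_spec : ∀ f a x x' : ℕ, x = Nat.fib a → x' = Nat.fib (a + 1) →
    outer f a x x' = true → ∀ c, a ≤ c → c < a + f → ∀ b, b < 240 →
      test (Nat.fib c) (Nat.fib b) c b = true := by
  intro f
  induction f with
  | zero => intro a x x' _ _ _ c h1 h2; omega
  | succ f ih =>
    intro a x x' hx hx' h c h1 h2 b hb
    rw [outer, Bool.and_eq_true] at h
    rcases Nat.eq_or_lt_of_le h1 with rfl | h3
    · rw [← hx]
      exact inner_spec x a 240 0 0 1 rfl rfl h.1 b (Nat.zero_le _) (by omega)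
    · refine ih (a + 1) x' (x + x') hx' ?_ h.2 c h3 (by omega) b hb
      rw [hx, hx', ← Nat.fib_add_two]

theorem test_all {a b : ℕ} (ha : a < 240) (hb : b < 240) :
    test (Nat.fib a) (Nat.fib b) a b = true :=
  outer_spec 240 0 0 1 rfl rfl outer_true a (Nat.zero_le _) (by omega) b hb

/-- The masks contain all squares. -/
def goodMask (p : ℕ × ℕ) : Bool :=
  decide (1 ≤ p.1) && (List.range p.1).all (fun r => Nat.testBit p.2 (r * r % p.1))

theorem mods_good : mods.all goodMask = true := by decide +kernel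

theorem mods_period : mods.all (fun p => decide (Nat.fib 240 % p.1 = 0) &&
    decide (Nat.fib 241 % p.1 = 1 % p.1)) = true := by decide +kernel

/-! ### Periodicity -/

lemma fib_period {P q : ℕ} (h0 : Nat.fib P % q = 0) (h1 : Nat.fib (P + 1) % q = 1 % q) (n : ℕ) :
    Nat.fib (n + P) ≡ Nat.fib n [MOD q] ∧ Nat.fib (n + 1 + P) ≡ Nat.fib (n + 1) [MOD q] := by
  induction n with
  | zero =>
    refine ⟨?_, ?_⟩
    · rw [Nat.zero_add, Nat.fib_zero]; exact h0.trans (Nat.zero_mod q).symm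
    · rw [Nat.zero_add, Nat.add_comm 1 P]; exact h1
  | succ n ih =>
    refine ⟨ih.2, ?_⟩
    rw [show n + 1 + 1 + P = (n + P) + 2 by ring, show n + 1 + 1 = n + 2 by ring,
      Nat.fib_add_two, Nat.fib_add_two, show n + P + 1 = n + 1 + P by ring]
    exact Nat.ModEq.add ih.1 ih.2

lemma fib_period_mul {P q : ℕ} (h0 : Nat.fib P % q = 0) (h1 : Nat.fib (P + 1) % q = 1 % q)
    (n t : ℕ) : Nat.fib (n + P * t) ≡ Nat.fib n [MOD q] := by
  induction t with
  | zero => exact Nat.ModEq.refl _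
  | succ t ih =>
    rw [show n + P * (t + 1) = (n + P * t) + P by ring]
    exact (fib_period h0 h1 _).1.trans ih

lemma fib_mod {P q : ℕ} (h0 : Nat.fib P % q = 0) (h1 : Nat.fib (P + 1) % q = 1 % q) (n : ℕ) :
    Nat.fib n ≡ Nat.fib (n % P) [MOD q] := by
  have h := fib_period_mul h0 h1 (n % P) (n / P)
  rwa [Nat.mod_add_div] at h

/-! ### The residue classes -/

theorem classes {n j m : ℕ} (h : 4 * Nat.fib n ^ 2 = Nat.fib j ^ 2 + m ^ 2) :
    inS (n % 240) (j % 240) = true := by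
  have ht := test_all (Nat.mod_lt n (by norm_num : 0 < 240)) (Nat.mod_lt j (by norm_num : 0 < 240))
  rw [test, Bool.or_eq_true] at ht
  rcases ht with ht | ht
  · exact ht
  · exfalso
    obtain ⟨p, hp, hb⟩ := killed_spec _ _ _ ht
    have g1 := List.all_eq_true.1 mods_good p hp
    have g2 := List.all_eq_true.1 mods_period p hp
    rw [goodMask, Bool.and_eq_true] at g1
    rw [Bool.and_eq_true] at g2
    have q1 : 1 ≤ p.1 := of_decide_eq_true g1.1
    have h0 := of_decide_eq_true g2.1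
    have h1 := of_decide_eq_true g2.2
    have e1 : Nat.fib n ≡ Nat.fib (n % 240) [MOD p.1] := fib_mod h0 h1 n
    have e2 : Nat.fib j ≡ Nat.fib (j % 240) [MOD p.1] := fib_mod h0 h1 j
    have e3 : 4 * (Nat.fib (n % 240) * Nat.fib (n % 240)) +
        (p.1 - 1) * (Nat.fib (j % 240) * Nat.fib (j % 240)) ≡
        4 * (Nat.fib n * Nat.fib n) + (p.1 - 1) * (Nat.fib j * Nat.fib j) [MOD p.1] :=
      Nat.ModEq.add (Nat.ModEq.mul_left _ (Nat.ModEq.mul e1.symm e1.symm))
        (Nat.ModEq.mul_left _ (Nat.ModEq.mul e2.symm e2.symm))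
    have e4 : 4 * (Nat.fib n * Nat.fib n) + (p.1 - 1) * (Nat.fib j * Nat.fib j) =
        m * m + p.1 * (Nat.fib j * Nat.fib j) := by
      obtain ⟨c, hc⟩ : ∃ c, p.1 = c + 1 := ⟨p.1 - 1, by omega⟩
      rw [hc, Nat.add_sub_cancel]
      nlinarith [h]
    rw [e4] at e3
    have e5 : m * m + p.1 * (Nat.fib j * Nat.fib j) ≡ (m % p.1) * (m % p.1) [MOD p.1] := by
      have e6 : p.1 * (Nat.fib j * Nat.fib j) ≡ 0 [MOD p.1] :=
        (Nat.modEq_zero_iff_dvd).2 (Dvd.intro _ rfl)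
      have e7 : m ≡ m % p.1 [MOD p.1] := (Nat.mod_modEq m p.1).symm
      simpa using Nat.ModEq.add (Nat.ModEq.mul e7 e7) e6
    have e8 := e3.trans e5
    have e9 : (4 * (Nat.fib (n % 240) * Nat.fib (n % 240)) +
        (p.1 - 1) * (Nat.fib (j % 240) * Nat.fib (j % 240))) % p.1 =
        ((m % p.1) * (m % p.1)) % p.1 := e8
    rw [e9] at hb
    have g3 := List.all_eq_true.1 g1.2 (m % p.1) (List.mem_range.2 (Nat.mod_lt _ q1))
    rw [g3] at hb
    exact Bool.noConfusion hb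

/-! ### From the area to a Diophantine equation -/

lemma square_of_area {n k : ℕ} (hk : 1 ≤ k) (hkn : k < n) {z : ℤ} (hz : area n k = z) :
    ∃ m : ℕ, 4 * Nat.fib n ^ 2 = Nat.fib (n - k) ^ 2 + m ^ 2 := by
  have hle : Nat.fib (n - k) ≤ Nat.fib n := Nat.fib_mono (by omega)
  have hpos : 0 < Nat.fib (n - k) := Nat.fib_pos.2 (by omega)
  have hle2 : Nat.fib (n - k) ^ 2 ≤ 4 * Nat.fib n ^ 2 := by nlinarith
  obtain ⟨D, hD⟩ : ∃ D, 4 * Nat.fib n ^ 2 = Nat.fib (n - k) ^ 2 + D := ⟨_, (Nat.add_sub_of_le hle2).symm⟩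
  have hD' : (4 * (Nat.fib n : ℝ) ^ 2 - (Nat.fib (n - k) : ℝ) ^ 2) = (D : ℝ) := by
    have : ((4 * Nat.fib n ^ 2 : ℕ) : ℝ) = ((Nat.fib (n - k) ^ 2 + D : ℕ) : ℝ) := by rw [hD]
    push_cast at this
    linarith
  have hsq : IsSquare D := by
    by_contra hns
    have hirr : Irrational (Real.sqrt (D : ℝ)) := irrational_sqrt_natCast_iff.2 hns
    apply hirr
    refine ⟨(4 * (z : ℚ)) / (Nat.fib (n - k) : ℚ), ?_⟩
    have hF : (0 : ℝ) < (Nat.fib (n - k) : ℝ) := by exact_mod_cast hpos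
    unfold area at hz
    rw [hD'] at hz
    push_cast
    rw [← hz]
    field_simp
  obtain ⟨m, hm⟩ := hsq
  exact ⟨m, by rw [hD, hm]; ring⟩

/-! ### Primes congruent to 3 modulo 4 -/

lemma no_prime {n k m : ℕ} (hkn : k < n)
    (h : 4 * Nat.fib n ^ 2 = Nat.fib (n - k) ^ 2 + m ^ 2) {p : ℕ} (hp : p.Prime)
    (hp3 : p % 4 = 3) : ¬ p ∣ Nat.fib n / Nat.fib (Nat.gcd n k) := by
  intro hdiv
  set d := Nat.gcd n k with hd
  have hn0 : 0 < n := by omega
  have hdpos : 0 < d := Nat.gcd_pos_of_pos_left _ hn0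
  have hFd : 0 < Nat.fib d := Nat.fib_pos.2 hdpos
  have hgcd : Nat.gcd n (n - k) = d := by
    have h1 : Nat.gcd n (n - k) = Nat.gcd n k := by
      conv_lhs => rw [← Nat.gcd_self_sub_right (by omega : n - k ≤ n)]
      rw [Nat.sub_sub_self hkn.le]
    rw [h1]
  have hgF : Nat.gcd (Nat.fib n) (Nat.fib (n - k)) = Nat.fib d := by
    rw [← Nat.fib_gcd, hgcd]
  obtain ⟨u, hu⟩ : Nat.fib d ∣ Nat.fib n := hgF ▸ Nat.gcd_dvd_left _ _
  obtain ⟨v, hv⟩ : Nat.fib d ∣ Nat.fib (n - k) := hgF ▸ Nat.gcd_dvd_right _ _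
  have huv : Nat.Coprime u v := by
    have h1 : Nat.gcd (Nat.fib d * u) (Nat.fib d * v) = Nat.fib d := by rw [← hu, ← hv]; exact hgF
    rw [Nat.gcd_mul_left] at h1
    exact Nat.eq_of_mul_eq_mul_left hFd (by rw [h1, Nat.mul_one])
  have hdivu : p ∣ u := by
    rw [hu, Nat.mul_div_cancel_left _ hFd] at hdiv
    exact hdiv
  have hm : Nat.fib d ∣ m := by
    have h1 : Nat.fib d ^ 2 ∣ m ^ 2 := by
      have h2 : Nat.fib d ^ 2 ∣ Nat.fib (n - k) ^ 2 + m ^ 2 := by
        rw [← h, hu]; exact ⟨4 * u ^ 2, by ring⟩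
      have h3 : Nat.fib d ^ 2 ∣ Nat.fib (n - k) ^ 2 := by
        rw [hv]; exact ⟨v ^ 2, by ring⟩
      exact (Nat.dvd_add_right h3).1 h2
    exact (Nat.pow_dvd_pow_iff (by norm_num)).1 h1
  obtain ⟨w, hw⟩ := hm
  have heq : 4 * u ^ 2 = v ^ 2 + w ^ 2 := by
    have h1 : Nat.fib d ^ 2 * (4 * u ^ 2) = Nat.fib d ^ 2 * (v ^ 2 + w ^ 2) := by
      have h2 := h
      rw [hu, hv, hw] at h2
      nlinarith [h2]
    exact Nat.eq_of_mul_eq_mul_left (by positivity) h1
  have : Fact p.Prime := ⟨hp⟩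
  have hvw : p ∣ v := by
    by_contra hnv
    have hvz : (v : ZMod p) ≠ 0 := by
      intro h0
      exact hnv ((ZMod.natCast_eq_zero_iff _ _).1 h0)
    have hsum : (w : ZMod p) ^ 2 = -(v : ZMod p) ^ 2 := by
      have h1 : ((v ^ 2 + w ^ 2 : ℕ) : ZMod p) = 0 := by
        rw [ZMod.natCast_eq_zero_iff, ← heq]
        exact Dvd.dvd.mul_left (Dvd.dvd.pow hdivu (by norm_num)) 4
      push_cast at h1
      linear_combination h1
    exact ZMod.mod_four_ne_three_of_sq_eq_neg_sq' hvz hsum hp3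
  have := Nat.dvd_gcd hdivu hvw
  rw [huv] at this
  exact hp.one_lt.ne' (Nat.dvd_one.1 this)

lemma exists_prime_three : ∀ N : ℕ, N % 4 = 3 → ∃ p, p.Prime ∧ p ∣ N ∧ p % 4 = 3 := by
  intro N
  induction N using Nat.strong_induction_on with
  | _ N ih =>
    intro hN
    have hN1 : N ≠ 1 := by omega
    have hp := Nat.minFac_prime hN1
    have hpd := Nat.minFac_dvd N
    obtain ⟨c, hc⟩ := hpd
    by_cases h3 : N.minFac % 4 = 3
    · exact ⟨N.minFac, hp, ⟨c, hc⟩, h3⟩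
    · have hodd : N.minFac % 4 = 1 := by
        have h5 : (N.minFac * c) % 4 = 3 := by rw [← hc]; exact hN
        rw [Nat.mul_mod] at h5
        have h6 : N.minFac % 4 < 4 := Nat.mod_lt _ (by norm_num)
        have h7 : c % 4 < 4 := Nat.mod_lt _ (by norm_num)
        interval_cases (N.minFac % 4) <;> interval_cases (c % 4) <;> omega
      have hc3 : c % 4 = 3 := by
        have h5 : (N.minFac * c) % 4 = 3 := by rw [← hc]; exact hN
        rw [Nat.mul_mod, hodd] at h5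
        omega
      have hclt : c < N := by
        have hp2 := hp.two_le
        have hcpos : 0 < c := by omega
        calc c < 2 * c := by omega
          _ ≤ N.minFac * c := Nat.mul_le_mul_right _ hp2
          _ = N := hc.symm
      obtain ⟨p, h1, h2, h4⟩ := ih c hclt hc3
      exact ⟨p, h1, h2.trans ⟨N.minFac, by rw [Nat.mul_comm]; exact hc⟩, h4⟩

/-- The Lucas number `L m = 2 F (m + 1) - F m` is `3` modulo `4` for `m ≡ 2, 4, 5` modulo `6`. -/
lemma lucas_mod {m : ℕ} (hm : m % 6 = 2 ∨ m % 6 = 4 ∨ m % 6 = 5) :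
    (2 * Nat.fib (m + 1) - Nat.fib m) % 4 = 3 := by
  have h0 : Nat.fib 6 % 4 = 0 := by decide
  have h1 : Nat.fib (6 + 1) % 4 = 1 % 4 := by decide
  have hle : Nat.fib m ≤ Nat.fib (m + 1) := Nat.fib_mono (by omega)
  obtain ⟨t, r, hr, rfl⟩ : ∃ t r, (r = 2 ∨ r = 4 ∨ r = 5) ∧ m = r + 6 * t :=
    ⟨m / 6, m % 6, hm, (Nat.mod_add_div m 6).symm⟩
  have a1 : Nat.fib (r + 6 * t) % 4 = Nat.fib r % 4 := fib_period_mul h0 h1 r t
  have a2 : Nat.fib (r + 6 * t + 1) % 4 = Nat.fib (r + 1) % 4 := by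
    have := fib_period_mul h0 h1 (r + 1) t
    rwa [show r + 1 + 6 * t = r + 6 * t + 1 by ring] at this
  rcases hr with rfl | rfl | rfl
  · have b1 : Nat.fib 2 = 1 := by decide
    have b2 : Nat.fib (2 + 1) = 2 := by decide
    rw [b1] at a1; rw [b2] at a2; omega
  · have b1 : Nat.fib 4 = 3 := by decide
    have b2 : Nat.fib (4 + 1) = 5 := by decide
    rw [b1] at a1; rw [b2] at a2; omega
  · have b1 : Nat.fib 5 = 5 := by decide
    have b2 : Nat.fib (5 + 1) = 8 := by decide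
    rw [b1] at a1; rw [b2] at a2; omega

lemma key {n k m : ℕ} (hkn : k < n)
    (h : 4 * Nat.fib n ^ 2 = Nat.fib (n - k) ^ 2 + m ^ 2) {i : ℕ}
    (hi : i % 6 = 2 ∨ i % 6 = 4 ∨ i % 6 = 5) (hin : 2 * i ∣ n) (hgi : Nat.gcd (2 * i) k ∣ i) :
    False := by
  obtain ⟨p, hp, hpd, hp3⟩ := exists_prime_three _ (lucas_mod hi)
  refine no_prime hkn h hp hp3 ?_
  have hn0 : 0 < n := by omega
  have h1 : p ∣ Nat.fib (2 * i) := by
    rw [Nat.fib_two_mul]; exact Dvd.dvd.mul_left hpd _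
  have h2 : p ∣ Nat.fib n := h1.trans (Nat.fib_dvd _ _ hin)
  have hcop : ¬ p ∣ Nat.fib i := by
    intro h3
    have h4 : p ∣ 2 * Nat.fib (i + 1) := by
      have h5 : 2 * Nat.fib (i + 1) = (2 * Nat.fib (i + 1) - Nat.fib i) + Nat.fib i := by
        have hle : Nat.fib i ≤ Nat.fib (i + 1) := Nat.fib_mono (by omega)
        omega
      rw [h5]; exact Dvd.dvd.add hpd h3
    rcases (hp.dvd_mul).1 h4 with h6 | h6
    · have := Nat.le_of_dvd (by norm_num) h6
      have h7 := hp.two_le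
      have h8 : p = 2 := by omega
      rw [h8] at hp3; omega
    · have h9 := Nat.dvd_gcd h3 h6
      rw [Nat.Coprime.gcd_eq_one (Nat.fib_coprime_fib_succ i)] at h9
      exact hp.one_lt.ne' (Nat.dvd_one.1 h9)
  have hnd : ¬ p ∣ Nat.fib (Nat.gcd n k) := by
    intro h3
    have h4 : p ∣ Nat.fib (Nat.gcd (2 * i) (Nat.gcd n k)) := by
      rw [Nat.fib_gcd]; exact Nat.dvd_gcd h1 h3
    apply hcop
    refine h4.trans (Nat.fib_dvd _ _ ?_)
    refine Nat.dvd_trans ?_ hgi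
    exact Nat.dvd_gcd (Nat.gcd_dvd_left _ _)
      ((Nat.gcd_dvd_right _ _).trans (Nat.gcd_dvd_right _ _))
  have hFd : Nat.fib (Nat.gcd n k) ∣ Nat.fib n := Nat.fib_dvd _ _ (Nat.gcd_dvd_left _ _)
  obtain ⟨u, hu⟩ := hFd
  have hFpos : 0 < Nat.fib (Nat.gcd n k) := Nat.fib_pos.2 (Nat.gcd_pos_of_pos_left _ hn0)
  rw [hu, Nat.mul_div_cancel_left _ hFpos]
  rw [hu] at h2
  exact ((hp.dvd_mul).1 h2).resolve_left hnd

lemma two_adic {n k m : ℕ} (hkn : k < n)
    (h : 4 * Nat.fib n ^ 2 = Nat.fib (n - k) ^ 2 + m ^ 2) (h4 : 4 ∣ n) :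
    ∀ a : ℕ, 2 ^ a ∣ n → 2 ^ a ∣ k := by
  have main : ∀ a : ℕ, 2 ^ (a + 2) ∣ n → 2 ^ (a + 2) ∣ k := by
    intro a ha
    by_contra hna
    have hpow6 : ∀ b : ℕ, 2 ^ (b + 1) % 6 = 2 ∨ 2 ^ (b + 1) % 6 = 4 := by
      intro b
      induction b with
      | zero => left; rfl
      | succ b ih =>
        rw [pow_succ]
        omega
    refine key hkn h (i := 2 ^ (a + 1)) ?_ ?_ ?_
    · rcases hpow6 a with h1 | h1
      · exact Or.inl h1
      · exact Or.inr (Or.inl h1)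
    · rw [show 2 * 2 ^ (a + 1) = 2 ^ (a + 2) by rw [pow_succ 2 (a + 1)]; ring]; exact ha
    · rw [show 2 * 2 ^ (a + 1) = 2 ^ (a + 2) by rw [pow_succ 2 (a + 1)]; ring]
      have h1 : Nat.gcd (2 ^ (a + 2)) k ∣ 2 ^ (a + 2) := Nat.gcd_dvd_left _ _
      obtain ⟨b, hb, hb'⟩ := (Nat.dvd_prime_pow Nat.prime_two).1 h1
      rw [hb']
      have hb2 : b ≠ a + 2 := by
        rintro rfl
        exact hna (hb' ▸ Nat.gcd_dvd_right _ _)
      exact Nat.pow_dvd_pow 2 (by omega)
  intro a ha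
  rcases Nat.lt_or_ge a 2 with h1 | h1
  · have h2 : 2 ^ 2 ∣ k := main 0 (by simpa using h4)
    exact (Nat.pow_dvd_pow 2 (by omega)).trans h2
  · obtain ⟨b, rfl⟩ : ∃ b, a = b + 2 := ⟨a - 2, by omega⟩
    exact main b ha

lemma even_of_ten {n k m : ℕ} (hkn : k < n)
    (h : 4 * Nat.fib n ^ 2 = Nat.fib (n - k) ^ 2 + m ^ 2) (h10 : n % 12 = 10) : 2 ∣ k := by
  by_contra hk
  obtain ⟨i, rfl⟩ : ∃ i, n = 2 * i := ⟨n / 2, by omega⟩
  refine key hkn h (i := i) (Or.inr (Or.inr (by omega))) dvd_rfl ?_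
  have h1 : Nat.gcd (2 * i) k ∣ 2 * i := Nat.gcd_dvd_left _ _
  have h2 : Nat.Coprime (Nat.gcd (2 * i) k) 2 := by
    have h3 : Odd k := Nat.odd_iff.2 (by omega)
    exact Nat.coprime_two_right.2 (Odd.of_dvd_nat h3 (Nat.gcd_dvd_right _ _))
  exact h2.dvd_of_dvd_mul_left h1


/-! ### The case `k ∣ n` -/

lemma cassini (i : ℕ) : (Nat.fib (i + 1) : ℤ) ^ 2 - Nat.fib (i + 1) * Nat.fib i -
    (Nat.fib i : ℤ) ^ 2 = (-1) ^ i := by
  induction i with
  | zero => simp
  | succ i ih =>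
    rw [Nat.fib_add_two, pow_succ (-1 : ℤ) i, ← ih]
    push_cast
    ring

lemma fib_shift {p i : ℕ} (hi : Even i) (hp : p ∣ 2 * Nat.fib (i + 1) - Nat.fib i) (c a : ℕ) :
    (Nat.fib (a + 2 * i * c) : ZMod p) = (-1) ^ c * (Nat.fib a : ZMod p) := by
  have hle : Nat.fib i ≤ 2 * Nat.fib (i + 1) := by
    have : Nat.fib i ≤ Nat.fib (i + 1) := Nat.fib_mono (by omega)
    omega
  have hL : (Nat.fib i : ZMod p) = 2 * (Nat.fib (i + 1) : ZMod p) := by
    have h1 : ((2 * Nat.fib (i + 1) - Nat.fib i : ℕ) : ZMod p) = 0 :=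
      (ZMod.natCast_eq_zero_iff _ _).2 hp
    rw [Nat.cast_sub hle] at h1
    push_cast at h1
    linear_combination -h1
  have hC : (Nat.fib (i + 1) : ZMod p) ^ 2 - Nat.fib (i + 1) * Nat.fib i -
      (Nat.fib i : ZMod p) ^ 2 = 1 := by
    have h1 := congrArg (Int.cast : ℤ → ZMod p) (cassini i)
    rw [hi.neg_one_pow] at h1
    push_cast at h1
    exact h1
  have h0 : (Nat.fib (2 * i) : ZMod p) = 0 := by
    rw [Nat.fib_two_mul]
    push_cast
    rw [(ZMod.natCast_eq_zero_iff _ _).2 hp, mul_zero]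
  have h1 : (Nat.fib (2 * i + 1) : ZMod p) = -1 := by
    rw [Nat.fib_two_mul_add_one]
    push_cast
    rw [hL] at hC ⊢
    linear_combination -hC
  have step : ∀ a : ℕ, (Nat.fib (a + 2 * i) : ZMod p) = -(Nat.fib a : ZMod p) ∧
      (Nat.fib (a + 1 + 2 * i) : ZMod p) = -(Nat.fib (a + 1) : ZMod p) := by
    intro a
    induction a with
    | zero =>
      refine ⟨?_, ?_⟩
      · rw [Nat.zero_add, h0]; simp
      · rw [Nat.zero_add, Nat.add_comm 1 (2 * i), h1]; simp
    | succ a ih =>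
      refine ⟨ih.2, ?_⟩
      rw [show a + 1 + 1 + 2 * i = (a + 2 * i) + 2 by ring, show a + 1 + 1 = a + 2 by ring,
        Nat.fib_add_two, Nat.fib_add_two, show a + 2 * i + 1 = a + 1 + 2 * i by ring]
      push_cast
      rw [ih.1, ih.2]
      ring
  induction c with
  | zero => simp
  | succ c ih =>
    rw [show a + 2 * i * (c + 1) = (a + 2 * i * c) + 2 * i by ring, (step _).1, ih, pow_succ]
    ring

lemma four_dvd {a b : ℕ} (h : 8 ∣ a * b) (ha : ¬ 4 ∣ a) : 4 ∣ b := by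
  have h1 : a % 4 = 1 ∨ a % 4 = 2 ∨ a % 4 = 3 := by omega
  rcases h1 with h1 | h1 | h1
  · have hc : Nat.Coprime 8 a := by
      have : Odd a := Nat.odd_iff.2 (by omega)
      exact Nat.Coprime.pow_left 3 (Nat.coprime_two_left.2 this)
    exact (by norm_num : 4 ∣ 8).trans (hc.dvd_of_dvd_mul_left h)
  · obtain ⟨c, hc⟩ : ∃ c, a = 2 * c := ⟨a / 2, by omega⟩
    have hodd : Odd c := Nat.odd_iff.2 (by omega)
    have h2 : 4 ∣ c * b := by
      have h3 : 2 * 4 ∣ 2 * (c * b) := by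
        rw [hc] at h
        simpa [Nat.mul_assoc] using h
      exact Nat.dvd_of_mul_dvd_mul_left (by norm_num) h3
    have hc : Nat.Coprime 4 c := Nat.Coprime.pow_left 2 (Nat.coprime_two_left.2 hodd)
    exact hc.dvd_of_dvd_mul_left h2
  · have hc : Nat.Coprime 8 a := by
      have : Odd a := Nat.odd_iff.2 (by omega)
      exact Nat.Coprime.pow_left 3 (Nat.coprime_two_left.2 this)
    exact (by norm_num : 4 ∣ 8).trans (hc.dvd_of_dvd_mul_left h)

lemma fib_mod_four {k : ℕ} (hk : ¬ 6 ∣ k) : ¬ 4 ∣ Nat.fib k := by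
  have h0 : Nat.fib 6 % 4 = 0 := by decide
  have h1 : Nat.fib (6 + 1) % 4 = 1 % 4 := by decide
  have h2 : Nat.fib k % 4 = Nat.fib (k % 6) % 4 := fib_mod h0 h1 k
  intro h
  have h3 : Nat.fib (k % 6) % 4 = 0 := by omega
  have h4 : k % 6 < 6 := Nat.mod_lt _ (by norm_num)
  have h5 : k % 6 ≠ 0 := by omega
  have hk' : ∀ t : ℕ, t < 6 → t ≠ 0 → Nat.fib t % 4 ≠ 0 := by decide
  exact hk' _ h4 h5 h3

/-- No solution with `k ∣ n`, `12 ∣ n - k` and `6 ∤ k`. -/
theorem dvd_case {n k m : ℕ} (hk : 1 ≤ k) (hkn : k < n)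
    (h : 4 * Nat.fib n ^ 2 = Nat.fib (n - k) ^ 2 + m ^ 2) (hdvd : k ∣ n) (h12 : 12 ∣ n - k)
    (h6 : ¬ 6 ∣ k) : False := by
  obtain ⟨c, hc⟩ := hdvd
  have hn0 : 0 < n := by omega
  have hFk : 0 < Nat.fib k := Nat.fib_pos.2 (by omega)
  -- `c` is odd
  have hcodd : c % 2 = 1 := by
    by_contra hce
    obtain ⟨c', hc'⟩ : ∃ c', c = 2 * c' := ⟨c / 2, by omega⟩
    have h2k : 2 ∣ k := by
      by_contra h2
      have e1 : n % 2 = 0 := by rw [hc, hc']; rw [show k * (2 * c') = 2 * (k * c') by ring]; omega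
      omega
    obtain ⟨b, q, hq, hkq⟩ := Nat.exists_eq_two_pow_mul_odd (n := k) (by omega)
    have h4n : 4 ∣ n := by
      obtain ⟨k', hk'⟩ := h2k
      exact ⟨k' * c', by rw [hc, hc', hk']; ring⟩
    have h5 : 2 ^ (b + 1) ∣ k := two_adic hkn h h4n (b + 1) ⟨q * c', by rw [hc, hc', hkq]; ring⟩
    rw [hkq, pow_succ] at h5
    have h7 : 2 ∣ q := Nat.dvd_of_mul_dvd_mul_left (by positivity) h5
    obtain ⟨q', hq'⟩ := hq
    omega
  obtain ⟨e, he⟩ : ∃ e, c = 2 * e + 1 := ⟨c / 2, by omega⟩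
  have hj : n - k = 2 * (k * e) := by
    rw [hc, he]
    have : k * (2 * e + 1) = 2 * (k * e) + k := by ring
    omega
  have hke : k * e ≠ 0 := by
    intro h0
    rw [h0] at hj
    omega
  obtain ⟨s, q, hq, hsq⟩ := Nat.exists_eq_two_pow_mul_odd (n := k * e) hke
  have hs : 1 ≤ s := by
    by_contra hs
    have hs0 : s = 0 := by omega
    rw [hs0, pow_zero, one_mul] at hsq
    obtain ⟨q', hq'⟩ := hq
    omega
  have hjs : n - k = 2 * 2 ^ s * q := by rw [hj, hsq]; ring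
  have hieven : Even (2 ^ s) := by
    rw [Nat.even_pow]; exact ⟨even_two, by omega⟩
  have hi6 : 2 ^ s % 6 = 2 ∨ 2 ^ s % 6 = 4 ∨ 2 ^ s % 6 = 5 := by
    have hpow6 : ∀ b : ℕ, 2 ^ (b + 1) % 6 = 2 ∨ 2 ^ (b + 1) % 6 = 4 := by
      intro b
      induction b with
      | zero => left; rfl
      | succ b ih =>
        rw [pow_succ]
        omega
    obtain ⟨b, rfl⟩ : ∃ b, s = b + 1 := ⟨s - 1, by omega⟩
    rcases hpow6 b with h1 | h1
    · exact Or.inl h1
    · exact Or.inr (Or.inl h1)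
  obtain ⟨p, hp, hpd, hp3⟩ := exists_prime_three _ (lucas_mod hi6)
  have : Fact p.Prime := ⟨hp⟩
  -- `p` does not divide `F k`
  have hpk : ¬ p ∣ Nat.fib k := by
    intro h3
    have h1 : p ∣ Nat.fib (2 * 2 ^ s) := by
      rw [Nat.fib_two_mul]; exact Dvd.dvd.mul_left hpd _
    have h4 : p ∣ Nat.fib (Nat.gcd (2 * 2 ^ s) k) := by
      rw [Nat.fib_gcd]; exact Nat.dvd_gcd h1 h3
    have hg : Nat.gcd (2 * 2 ^ s) k ∣ 2 ^ s := by
      have g1 : Nat.gcd (2 * 2 ^ s) k ∣ 2 ^ (s + 1) := by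
        rw [pow_succ, Nat.mul_comm (2 ^ s) 2]; exact Nat.gcd_dvd_left _ _
      obtain ⟨b, hb, hb'⟩ := (Nat.dvd_prime_pow Nat.prime_two).1 g1
      rw [hb']
      have hb2 : b ≠ s + 1 := by
        rintro rfl
        have g2 : 2 ^ (s + 1) ∣ k := hb' ▸ Nat.gcd_dvd_right _ _
        have g3 : 2 ^ (s + 1) ∣ k * e := Dvd.dvd.mul_right g2 e
        rw [hsq, pow_succ] at g3
        have g4 : 2 ∣ q := Nat.dvd_of_mul_dvd_mul_left (by positivity) g3
        obtain ⟨q', hq'⟩ := hq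
        omega
      exact Nat.pow_dvd_pow 2 (by omega)
    have h5 : p ∣ Nat.fib (2 ^ s) := h4.trans (Nat.fib_dvd _ _ hg)
    have h6' : p ∣ 2 * Nat.fib (2 ^ s + 1) := by
      have h7 : 2 * Nat.fib (2 ^ s + 1) =
          (2 * Nat.fib (2 ^ s + 1) - Nat.fib (2 ^ s)) + Nat.fib (2 ^ s) := by
        have hle : Nat.fib (2 ^ s) ≤ Nat.fib (2 ^ s + 1) := Nat.fib_mono (by omega)
        omega
      rw [h7]; exact Dvd.dvd.add hpd h5
    rcases (hp.dvd_mul).1 h6' with h7 | h7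
    · have := Nat.le_of_dvd (by norm_num) h7
      have h8 := hp.two_le
      have h9 : p = 2 := by omega
      rw [h9] at hp3; omega
    · have h9 := Nat.dvd_gcd h5 h7
      rw [Nat.Coprime.gcd_eq_one (Nat.fib_coprime_fib_succ _)] at h9
      exact hp.one_lt.ne' (Nat.dvd_one.1 h9)
  -- the reduced equation
  obtain ⟨u, hu⟩ : Nat.fib k ∣ Nat.fib n := Nat.fib_dvd _ _ ⟨c, hc⟩
  obtain ⟨v, hv⟩ : Nat.fib k ∣ Nat.fib (n - k) := Nat.fib_dvd _ _ ⟨2 * e, by rw [hj]; ring⟩
  have hgF : Nat.gcd (Nat.fib n) (Nat.fib (n - k)) = Nat.fib k := by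
    rw [← Nat.fib_gcd]
    congr 1
    rw [hj, hc, he, show 2 * (k * e) = k * (2 * e) by ring, Nat.gcd_mul_left]
    simp
  have huv : Nat.Coprime u v := by
    have h1 : Nat.gcd (Nat.fib k * u) (Nat.fib k * v) = Nat.fib k := by rw [← hu, ← hv]; exact hgF
    rw [Nat.gcd_mul_left] at h1
    exact Nat.eq_of_mul_eq_mul_left hFk (by rw [h1, Nat.mul_one])
  have hm : Nat.fib k ∣ m := by
    have h1 : Nat.fib k ^ 2 ∣ m ^ 2 := by
      have h2 : Nat.fib k ^ 2 ∣ Nat.fib (n - k) ^ 2 + m ^ 2 := by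
        rw [← h, hu]; exact ⟨4 * u ^ 2, by ring⟩
      have h3 : Nat.fib k ^ 2 ∣ Nat.fib (n - k) ^ 2 := by
        rw [hv]; exact ⟨v ^ 2, by ring⟩
      exact (Nat.dvd_add_right h3).1 h2
    exact (Nat.pow_dvd_pow_iff (by norm_num)).1 h1
  obtain ⟨w, hw⟩ := hm
  have heq : 4 * u ^ 2 = v ^ 2 + w ^ 2 := by
    have h1 : Nat.fib k ^ 2 * (4 * u ^ 2) = Nat.fib k ^ 2 * (v ^ 2 + w ^ 2) := by
      have h2 := h
      rw [hu, hv, hw] at h2
      nlinarith [h2]
    exact Nat.eq_of_mul_eq_mul_left (by positivity) h1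
  have h4v : 4 ∣ v := by
    refine four_dvd ?_ (fib_mod_four h6)
    rw [← hv]
    have h1 : Nat.fib 6 ∣ Nat.fib (n - k) := Nat.fib_dvd _ _ ((by norm_num : 6 ∣ 12).trans h12)
    exact h1
  obtain ⟨t, ht⟩ := h4v
  obtain ⟨w', hw'⟩ : 2 ∣ w := by
    have h1 : 2 ∣ w ^ 2 := by
      have h2 : 2 ∣ v ^ 2 + w ^ 2 := by rw [← heq]; exact ⟨2 * u ^ 2, by ring⟩
      have h3 : 2 ∣ v ^ 2 := by rw [ht]; exact ⟨8 * t ^ 2, by ring⟩
      exact (Nat.dvd_add_right h3).1 h2
    exact Nat.prime_two.dvd_of_dvd_pow h1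
  have heq2 : (u : ℤ) ^ 2 = (2 * t) ^ 2 + (w' : ℤ) ^ 2 := by
    have h1 : 4 * u ^ 2 = 4 * ((2 * t) ^ 2 + w' ^ 2) := by rw [heq, ht, hw']; ring
    have h2 : u ^ 2 = (2 * t) ^ 2 + w' ^ 2 := Nat.eq_of_mul_eq_mul_left (by norm_num) h1
    exact_mod_cast h2
  have hcop : IsCoprime ((u : ℤ) + 2 * t) ((u : ℤ) - 2 * t) := by
    have h1 : IsCoprime (u : ℤ) (4 * t : ℤ) := by
      have h2 : IsCoprime (u : ℤ) (v : ℤ) := Nat.isCoprime_iff_coprime.2 huv
      rw [ht] at h2
      push_cast at h2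
      exact h2
    obtain ⟨x, y, hxy⟩ := h1
    -- `u + 2 t` is coprime to `2 u` and to `4 t`
    have h3 : IsCoprime ((u : ℤ) + 2 * t) (4 * t) := by
      have h4 : IsCoprime (u : ℤ) (2 : ℤ) := by
        have h5 : IsCoprime (u : ℤ) (2 * (2 * t)) := ⟨x, y, by rw [← hxy]; ring⟩
        exact h5.of_mul_right_left
      have h6 : IsCoprime (u : ℤ) (t : ℤ) := by
        have h5 : IsCoprime (u : ℤ) (4 * t) := ⟨x, y, hxy⟩
        exact h5.of_mul_right_right
      have h7 : IsCoprime ((u : ℤ) + 2 * t) 2 := by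
        have := (IsCoprime.add_mul_left_left_iff (x := (u : ℤ)) (y := 2) (z := t)).2 h4
        exact this
      have h8 : IsCoprime ((u : ℤ) + 2 * t) t := by
        have := (IsCoprime.add_mul_right_left_iff (x := (u : ℤ)) (y := (t : ℤ)) (z := 2)).2 h6
        exact this
      have h9 : IsCoprime ((u : ℤ) + 2 * t) (2 * (2 * t)) := h7.mul_right (h7.mul_right h8)
      have h10 : (4 * t : ℤ) = 2 * (2 * t) := by ring
      rw [h10]; exact h9
    obtain ⟨a, b, hab⟩ := h3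
    refine ⟨a + b, -b, ?_⟩
    rw [← hab]; ring
  have hprod : ((u : ℤ) + 2 * t) * ((u : ℤ) - 2 * t) = (w' : ℤ) ^ 2 := by
    linear_combination heq2
  obtain ⟨x, hx⟩ := Int.sq_of_isCoprime hcop hprod
  have hupos : 0 < u := by
    rcases Nat.eq_zero_or_pos u with h0 | h0
    · rw [h0, Nat.mul_zero] at hu
      have := Nat.fib_pos.2 hn0
      omega
    · exact h0
  have hx2 : (u : ℤ) + 2 * t = x ^ 2 := by
    rcases hx with hx | hx
    · exact hx
    · exfalso
      have h1 : (0 : ℤ) < (u : ℤ) + 2 * t := by positivity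
      nlinarith [sq_nonneg x]
  -- reduce modulo `p`
  have hFkz : (Nat.fib k : ZMod p) ≠ 0 := by
    intro h0
    exact hpk ((ZMod.natCast_eq_zero_iff _ _).1 h0)
  have hun : (u : ZMod p) = -1 := by
    have h1 := fib_shift hieven hpd q k
    rw [show k + 2 * 2 ^ s * q = n by omega, hq.neg_one_pow, hu] at h1
    push_cast at h1
    have h2 : (Nat.fib k : ZMod p) * ((u : ZMod p) + 1) = 0 := by linear_combination h1
    rcases mul_eq_zero.1 h2 with h3 | h3
    · exact absurd h3 hFkz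
    · linear_combination h3
  have htz : (2 * t : ZMod p) = 0 := by
    have h1 : (Nat.fib (n - k) : ZMod p) = 0 := by
      have h2 := fib_shift hieven hpd q 0
      rw [show 0 + 2 * 2 ^ s * q = n - k by omega] at h2
      rw [h2]; simp
    rw [hv, ht] at h1
    push_cast at h1
    have h2 : (2 : ZMod p) ≠ 0 := by
      intro h0
      have h3 : p ∣ 2 := (ZMod.natCast_eq_zero_iff 2 p).1 (by exact_mod_cast h0)
      have h4 := Nat.le_of_dvd (by norm_num) h3
      have h5 := hp.two_le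
      have h6 : p = 2 := by omega
      rw [h6] at hp3; omega
    have h3 : ((Nat.fib k : ZMod p) * 2) * (2 * t) = 0 := by linear_combination h1
    rcases mul_eq_zero.1 h3 with h4 | h4
    · rcases mul_eq_zero.1 h4 with h5 | h5
      · exact absurd h5 hFkz
      · exact absurd h5 h2
    · exact h4
  have hfin : ((x : ZMod p)) ^ 2 = -1 := by
    have h1 := congrArg (Int.cast : ℤ → ZMod p) hx2
    push_cast at h1
    rw [← h1, hun, htz]
    ring
  exact ZMod.mod_four_ne_three_of_sq_eq_neg_one hfin hp3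

/-- Let `1 ≤ k < n` and suppose that the triangle with sides `F (n - k)`, `F n`, `F n` has integral
area.  Then `F n / F (gcd n k)` has no prime factor `p ≡ 3` modulo `4`; every power of `2` which
divides `n` divides `k` if `4 ∣ n`, and `k` is even if `n ≡ 10` modulo `12`; if `12 ∣ n - k` and
`6 ∤ k` then `k ∤ n`; and one of the following holds: `n - k ≡ 0` modulo `120`; `n - k ≡ ± 3, ± 27` and `n ≡ ± 1, 2` modulo `120`;
`n - k ≡ ± 6` and `n ≡ ± 5` modulo `120`; `n - k ≡ 60` and `n ≡ ± 30, ± 58, ± 59` modulo `120`. -/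
theorem result (n k : ℕ) (hk : 1 ≤ k) (hkn : k < n) (z : ℤ) (hz : area n k = z) :
    (∀ p : ℕ, p.Prime → p % 4 = 3 → ¬ p ∣ Nat.fib n / Nat.fib (Nat.gcd n k)) ∧
    (4 ∣ n → ∀ a : ℕ, 2 ^ a ∣ n → 2 ^ a ∣ k) ∧
    (n % 12 = 10 → 2 ∣ k) ∧
    ((n - k) % 12 = 0 → ¬ 6 ∣ k → ¬ k ∣ n) ∧
    ((n - k) % 120 = 0 ∨
      (((n - k) % 120 = 3 ∨ (n - k) % 120 = 27 ∨ (n - k) % 120 = 93 ∨ (n - k) % 120 = 117) ∧
        (n % 120 = 1 ∨ n % 120 = 2 ∨ n % 120 = 119)) ∨
      (((n - k) % 120 = 6 ∨ (n - k) % 120 = 114) ∧ (n % 120 = 5 ∨ n % 120 = 115)) ∨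
      ((n - k) % 120 = 60 ∧ (n % 120 = 30 ∨ n % 120 = 58 ∨ n % 120 = 59 ∨ n % 120 = 61 ∨
        n % 120 = 62 ∨ n % 120 = 90))) := by
  obtain ⟨m, hm⟩ := square_of_area hk hkn hz
  have h2 := two_adic hkn hm
  have h3 := fun h10 => even_of_ten hkn hm h10
  refine ⟨fun p hp hp3 => no_prime hkn hm hp hp3, h2, h3,
    fun h12 h6 hd => dvd_case hk hkn hm hd (Nat.dvd_of_mod_eq_zero h12) h6, ?_⟩
  have hc := classes hm
  have e1 : n % 240 % 120 = n % 120 := Nat.mod_mod_of_dvd _ (by norm_num)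
  have e2 : (n - k) % 240 % 120 = (n - k) % 120 := Nat.mod_mod_of_dvd _ (by norm_num)
  rw [inS, e1, e2] at hc
  simp only [Bool.or_eq_true, Bool.and_eq_true, beq_iff_eq] at hc
  rcases hc with ((hc | hc) | hc) | hc
  · exact Or.inl hc
  · right; left
    refine ⟨by tauto, ?_⟩
    rcases hc.2 with ((h | h) | h) | h
    · exact Or.inl h
    · exact Or.inr (Or.inl h)
    · exfalso
      have h4 := h3 (by omega)
      have h5 := hc.1
      omega
    · exact Or.inr (Or.inr h)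
  · right; right; left
    exact hc
  · right; right; right
    refine ⟨hc.1, by tauto⟩

end Pool.Agent.Results.MP_057a7b_nt.HeronClasses
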